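import Pool.Agent.V1187.Schrod

/-!
# The means of a convex potential along the Dirichlet eigenfunctions need not increase

On the interval `(0, 1)` with the potential `V x = x`, the means are greater than `1 / 2` for all large
`j`, and they converge to `1 / 2`; hence they are not in nondecreasing order.
-/

set_option autoImplicit false

open MeasureTheory Set

namespace Pool.Agent.Results.MP_490a28_an.MeansDecrease

open Pool.Agent.V1187.Sch

/-- For the interval `(0, 1)` and the convex potential `V x = x`: for every admissible eigenbasis there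
is an index `j` such that the mean of `V` in the state `j + 1` is smaller than that in the state `j`. -/
theorem result : ConvexOn ℝ (Ioo (0 : ℝ) 1) (fun x => x) ∧
    ∀ (lam : ℕ → ℝ) (u : ℕ → ℝ → ℝ), AdmissibleEigenbasis 0 1 (fun x => x) lam u →
      ∃ j, ∫ x in Ioo (0 : ℝ) 1, x * u (j + 1) x ^ 2 < ∫ x in Ioo (0 : ℝ) 1, x * u j x ^ 2 := by
  refine ⟨convexOn_id (convex_Ioo 0 1), ?_⟩
  intro lam u h
  have conv : ∀ f : ℝ → ℝ, ∫ x in Ioo (0 : ℝ) 1, f x = ∫ x in (0:ℝ)..1, f x := by
    intro f
    rw [intervalIntegral.integral_of_le zero_le_one, integral_Ioc_eq_integral_Ioo]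
  have ho := h.orthonormal
  simp only [conv] at ho ⊢
  exact descent h.sol h.mono ho

end Pool.Agent.Results.MP_490a28_an.MeansDecrease
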